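import Pool.Agent.Lib.MP_6e7c44_mp.Final2

/-!
Nearly equal masses, nearly circular Lagrange (equilateral homographic) solutions: every
neighbourhood of the initial condition contains a nonempty open set of initial conditions whose
solutions exist for all `t ≥ 0` without collision and have a mutual distance tending to infinity.
The plane is `ℂ`; `q t a` and `v t a` are the position and velocity of body `a` at time `t`.
-/

set_option autoImplicit false

open Pool.Agent.Lib.MP_6e7c44_mp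

theorem Pool.Agent.Results.MP_6e7c44_mp.LagrangeFamily.result :
    ∃ ε : ℝ, 0 < ε ∧ ∀ (m : Fin 3 → ℝ) (q v : ℝ → Fin 3 → ℂ),
      (∀ a, 0 < m a) → (∀ a b, m a ≤ (1 + ε) * m b) →
      (∀ t a, HasDerivAt (fun s => q s a) (v t a) t) →
      (∀ t a, HasDerivAt (fun s => v s a)
        (∑ b ∈ Finset.univ.erase a, (m b / ‖q t b - q t a‖ ^ 3) • (q t b - q t a)) t) →
      (∀ t a b, a ≠ b → q t a ≠ q t b) →
      (∀ t, ‖q t 0 - q t 1‖ = ‖q t 1 - q t 2‖ ∧ ‖q t 1 - q t 2‖ = ‖q t 2 - q t 0‖) →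
      (∀ s t, ‖q s 0 - q s 1‖ ≤ (1 + ε) * ‖q t 0 - q t 1‖) →
      ∀ U ∈ nhds (q 0, v 0), ∃ W : Set ((Fin 3 → ℂ) × (Fin 3 → ℂ)),
        IsOpen W ∧ W.Nonempty ∧ W ⊆ U ∧ ∀ p ∈ W, ∃ Q V : ℝ → Fin 3 → ℂ, Q 0 = p.1 ∧ V 0 = p.2 ∧
          (∀ t, 0 ≤ t → ∀ a, HasDerivAt (fun s => Q s a) (V t a) t ∧ HasDerivAt (fun s => V s a)
            (∑ b ∈ Finset.univ.erase a, (m b / ‖Q t b - Q t a‖ ^ 3) • (Q t b - Q t a)) t) ∧
          (∀ t, 0 ≤ t → ∀ a b, a ≠ b → Q t a ≠ Q t b) ∧
          ∃ a b, Filter.Tendsto (fun t => ‖Q t a - Q t b‖) Filter.atTop Filter.atTop := by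
  have h0 : 0 < del0 := by unfold del0; positivity
  have h1 := sig_pos
  refine ⟨min del0 (sig ^ 3 / 40000), by positivity, fun m q v hm hmm hq hv hc he hr U hU => ?_⟩
  have h := lagrange_good' (by positivity) (min_le_left _ _) (min_le_right _ _) hm hmm hq hv
    (ρ := fun t => ‖q t 0 - q t 1‖)
    (fun t => norm_pos_iff.mpr (sub_ne_zero.mpr (hc t 0 1 (by decide))))
    (fun t a b hab => by
      obtain ⟨e1, e2⟩ := he t
      fin_cases a <;> fin_cases b
      · exact absurd rfl hab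
      · rfl
      · exact (norm_sub_rev _ _).trans (e1.trans e2).symm
      · exact norm_sub_rev _ _
      · exact absurd rfl hab
      · exact e1.symm
      · exact (e1.trans e2).symm
      · exact (norm_sub_rev _ _).trans e1.symm
      · exact absurd rfl hab) hr
  refine ⟨interior U ∩ interior (Esc m), isOpen_interior.inter isOpen_interior,
    mem_closure_iff_nhds.mp h _ (interior_mem_nhds.mpr hU),
    fun p hp => interior_subset hp.1, fun p hp => ?_⟩
  have h2 : p ∈ Esc m := interior_subset hp.2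
  exact h2
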